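import Pool.Agent.H964.QC.Stm

/-!
# Moments of the tilted environment (task QC-LAW of helper964)
-/

set_option autoImplicit false

open MeasureTheory

namespace Pool.Agent.H277.QC

open Pool.Agent.H964.QC

section law

variable {μ : Measure ℝ} [IsProbabilityMeasure μ]
  (hI : ∀ b : ℝ, 0 ≤ b → Integrable (fun x : ℝ => Real.exp (b * x)) μ)

include hI

theorem exp_lam {b : ℝ} (hb : 0 ≤ b) : Real.exp (Lam μ b) = ∫ x, Real.exp (b * x) ∂μ := by
  unfold Lam
  exact Real.exp_log (integral_exp_pos (hI b hb))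

omit [IsProbabilityMeasure μ] in
theorem int_pow [IsProbabilityMeasure μ] {b : ℝ} (hb : 0 ≤ b) (k : ℕ) :
    Integrable (fun x : ℝ => Real.exp (b * x - Lam μ b) ^ k) μ := by
  have h : (fun x : ℝ => Real.exp (b * x - Lam μ b) ^ k) =
      fun x => Real.exp (-(k * Lam μ b)) * Real.exp ((k * b) * x) := by
    funext x
    rw [← Real.exp_nat_mul, ← Real.exp_add]
    congr 1
    ring
  rw [h]
  exact (hI (k * b) (by positivity)).const_mul _

theorem mean_one {b : ℝ} (hb : 0 ≤ b) : ∫ x, Real.exp (b * x - Lam μ b) ∂μ = 1 := by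
  have h : (fun x : ℝ => Real.exp (b * x - Lam μ b)) =
      fun x => Real.exp (-(Lam μ b)) * Real.exp (b * x) := by
    funext x
    rw [← Real.exp_add]
    congr 1
    ring
  rw [h, integral_const_mul, ← exp_lam hI hb, ← Real.exp_add]
  simp

theorem sq_mean {b : ℝ} (hb : 0 ≤ b) :
    ∫ x, Real.exp (b * x - Lam μ b) ^ 2 ∂μ = 1 + sig2 μ b := by
  have h : (fun x : ℝ => Real.exp (b * x - Lam μ b) ^ 2) =
      fun x => Real.exp (-(2 * Lam μ b)) * Real.exp ((2 * b) * x) := by
    funext x
    rw [← Real.exp_nat_mul, ← Real.exp_add]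
    congr 1
    push_cast
    ring
  rw [h, integral_const_mul, ← exp_lam hI (by positivity : (0 : ℝ) ≤ 2 * b), ← Real.exp_add]
  unfold sig2
  rw [add_sub_cancel]
  congr 1
  ring

/-- convexity of `Lam` -/
theorem lam_conv {u v θ : ℝ} (hu : 0 ≤ u) (hv : 0 ≤ v) (h0 : 0 ≤ θ) (h1 : θ ≤ 1) :
    Lam μ ((1 - θ) * u + θ * v) ≤ (1 - θ) * Lam μ u + θ * Lam μ v := by
  have hw : 0 ≤ (1 - θ) * u + θ * v := by
    have : 0 ≤ 1 - θ := by linarith
    positivity
  rw [← Real.exp_le_exp, exp_lam hI hw]
  have hpt : ∀ x : ℝ, Real.exp (((1 - θ) * u + θ * v) * x) ≤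
      Real.exp ((1 - θ) * Lam μ u + θ * Lam μ v) *
        ((1 - θ) * Real.exp (u * x - Lam μ u) + θ * Real.exp (v * x - Lam μ v)) := by
    intro x
    have hc := (convexOn_exp.2 (Set.mem_univ (u * x - Lam μ u)) (Set.mem_univ (v * x - Lam μ v))
      (by linarith : (0 : ℝ) ≤ 1 - θ) h0 (by ring))
    simp only [smul_eq_mul] at hc
    have e : Real.exp (((1 - θ) * u + θ * v) * x) =
        Real.exp ((1 - θ) * Lam μ u + θ * Lam μ v) *
        Real.exp ((1 - θ) * (u * x - Lam μ u) + θ * (v * x - Lam μ v)) := by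
      rw [← Real.exp_add]
      congr 1
      ring
    rw [e]
    exact mul_le_mul_of_nonneg_left hc (Real.exp_pos _).le
  have i1 : Integrable (fun x : ℝ => Real.exp (u * x - Lam μ u)) μ := by
    have := int_pow hI hu 1
    simpa using this
  have i2 : Integrable (fun x : ℝ => Real.exp (v * x - Lam μ v)) μ := by
    have := int_pow hI hv 1
    simpa using this
  have hint := integral_mono (hI _ hw) (((i1.const_mul (1 - θ)).add (i2.const_mul θ)).const_mul
    (Real.exp ((1 - θ) * Lam μ u + θ * Lam μ v))) hpt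
  refine hint.trans (le_of_eq ?_)
  have e2 : ∫ x, (Real.exp ((1 - θ) * Lam μ u + θ * Lam μ v) *
        ((1 - θ) * Real.exp (u * x - Lam μ u) + θ * Real.exp (v * x - Lam μ v))) ∂μ =
      Real.exp ((1 - θ) * Lam μ u + θ * Lam μ v) * ((1 - θ) * 1 + θ * 1) := by
    rw [integral_const_mul, integral_add (i1.const_mul _) (i2.const_mul _), integral_const_mul,
      integral_const_mul, mean_one hI hu, mean_one hI hv]
  refine Eq.trans ?_ (e2.trans (by ring))
  rfl

omit hI in
theorem lam_zero : Lam μ 0 = 0 := by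
  unfold Lam
  simp

theorem sig2_mono {b : ℝ} (hb : 1 ≤ b) : sig2 μ 1 ≤ sig2 μ b := by
  unfold sig2
  have hd : 0 < 2 * b - 1 := by linarith
  have hd' : 2 * b - 1 ≠ 0 := hd.ne'
  set θ : ℝ := 1 / (2 * b - 1) with hθ
  set φ : ℝ := (b - 1) / (2 * b - 1) with hφ
  have t0 : 0 ≤ θ := by positivity
  have t1 : θ ≤ 1 := by
    rw [hθ, div_le_one hd]
    linarith
  have p0 : 0 ≤ φ := div_nonneg (by linarith) hd.le
  have p1 : φ ≤ 1 := by
    rw [hφ, div_le_one hd]
    linarith
  have a1 := lam_conv hI (u := 1) (v := 2 * b) (by norm_num) (by linarith) t0 t1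
  have a2 := lam_conv hI (u := 1) (v := 2 * b) (by norm_num) (by linarith) p0 p1
  have hθ' : θ * (2 * b - 1) = 1 := by
    rw [hθ]
    exact div_mul_cancel₀ _ hd'
  have hφ' : φ * (2 * b - 1) = b - 1 := by
    rw [hφ]
    exact div_mul_cancel₀ _ hd'
  have e1 : (1 - θ) * 1 + θ * (2 * b) = 2 := by linear_combination hθ'
  have e2 : (1 - φ) * 1 + φ * (2 * b) = b := by linear_combination hφ'
  have e3 : θ + 2 * φ = 1 := by
    refine mul_right_cancel₀ hd' ?_
    linear_combination hθ' + 2 * hφ'
  rw [e1] at a1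
  rw [e2] at a2
  have h : Lam μ (2 * 1) - 2 * Lam μ 1 ≤ Lam μ (2 * b) - 2 * Lam μ b := by
    rw [mul_one]
    have e4 : θ = 1 - 2 * φ := by linarith
    rw [e4] at a1
    nlinarith
  have := Real.exp_le_exp.2 h
  linarith

end law

/-- the elementary inequality for the covariance -/
theorem cov_pt {b : ℝ} (h0 : 0 ≤ b) (h1 : b ≤ 1) (x : ℝ) :
    b * (x ^ 2 / (1 + |x|)) ≤ x * (Real.exp (b * x) - 1) := by
  have hden : 0 < 1 + |x| := by positivity
  rcases le_or_gt 0 x with hx | hx
  · have e1 : b * x ≤ Real.exp (b * x) - 1 := by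
      have := Real.add_one_le_exp (b * x)
      linarith
    have e2 : x * (b * x) ≤ x * (Real.exp (b * x) - 1) := mul_le_mul_of_nonneg_left e1 hx
    have e3 : x ^ 2 / (1 + |x|) ≤ x ^ 2 := by
      refine div_le_self (sq_nonneg x) ?_
      have := abs_nonneg x
      linarith
    have e4 := mul_le_mul_of_nonneg_left e3 h0
    nlinarith
  · set y : ℝ := -x with hy
    have hy0 : 0 < y := by linarith
    have hxy : x = -y := by linarith
    have habs : |x| = y := abs_of_neg hx
    rw [habs, hxy]
    have e1 : Real.exp (b * -y) ≤ 1 / (1 + b * y) := by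
      have h2 : 0 < 1 + b * y := by positivity
      rw [le_div_iff₀ h2]
      have h3 := Real.add_one_le_exp (b * y)
      have h4 : Real.exp (b * -y) * Real.exp (b * y) = 1 := by
        rw [← Real.exp_add]
        simp
      have h5 := Real.exp_pos (b * -y)
      nlinarith
    have e2 : b * y / (1 + y) ≤ 1 - Real.exp (b * -y) := by
      have h2 : b * y / (1 + y) ≤ b * y / (1 + b * y) := by
        refine div_le_div_of_nonneg_left (by positivity) (by positivity) ?_
        nlinarith
      have h3 : b * y / (1 + b * y) = 1 - 1 / (1 + b * y) := by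
        have : (1 + b * y) ≠ 0 := by positivity
        field_simp
        ring
      linarith
    have e3 := mul_le_mul_of_nonneg_left e2 hy0.le
    have e4 : b * ((-y) ^ 2 / (1 + y)) = y * (b * y / (1 + y)) := by
      field_simp
    rw [e4]
    linarith

/-- the pointwise bound of the fourth power -/
theorem four_pt {b L : ℝ} (h0 : 0 ≤ b) (h1 : b ≤ 1) (hL : 0 ≤ L) (x : ℝ) :
    (Real.exp (b * x - L) - 1) ^ 4 ≤ (Real.exp (b * x - L) - 1) ^ 2 +
      b ^ 2 * (24 * Real.exp (5 * x)) := by
  have hpos := Real.exp_pos (b * x - L)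
  have hE := Real.exp_pos (5 * x)
  set ξ : ℝ := Real.exp (b * x - L) - 1 with hξ
  rcases le_or_gt ξ 1 with h | h
  · have h2 : ξ ^ 2 ≤ 1 := by nlinarith
    have h3 : ξ ^ 4 ≤ ξ ^ 2 := by nlinarith [sq_nonneg ξ]
    have h4 : 0 ≤ b ^ 2 * (24 * Real.exp (5 * x)) := by positivity
    linarith
  · have hy : 0 < b * x - L := by
      by_contra hc
      rw [not_lt] at hc
      have := Real.exp_le_one_iff.2 hc
      linarith
    have hbx : 0 < b * x := by linarith
    have hx : 0 < x := by
      by_contra hc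
      rw [not_lt] at hc
      have := mul_nonpos_of_nonneg_of_nonpos h0 hc
      linarith
    have e1 : ξ ≤ (b * x - L) * Real.exp (b * x - L) := by
      have h2 := Real.add_one_le_exp (-(b * x - L))
      have h3 : Real.exp (-(b * x - L)) * Real.exp (b * x - L) = 1 := by
        rw [← Real.exp_add]
        simp
      nlinarith
    have e2 : (b * x - L) * Real.exp (b * x - L) ≤ (b * x) * Real.exp x := by
      refine mul_le_mul (by linarith) (Real.exp_le_exp.2 ?_) hpos.le hbx.le
      nlinarith
    have e3 : ξ ^ 4 ≤ ((b * x) * Real.exp x) ^ 4 :=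
      pow_le_pow_left₀ (by linarith) (e1.trans e2) 4
    have e4 : x ^ 4 ≤ 24 * Real.exp x := by
      have h2 := Real.pow_div_factorial_le_exp x hx.le 4
      have h3 : ((Nat.factorial 4 : ℕ) : ℝ) = 24 := by norm_num [Nat.factorial]
      rw [h3, div_le_iff₀ (by norm_num)] at h2
      linarith
    have e5 : b ^ 4 ≤ b ^ 2 := pow_le_pow_of_le_one h0 h1 (by norm_num)
    have e6 : ((b * x) * Real.exp x) ^ 4 = b ^ 4 * (x ^ 4 * Real.exp (4 * x)) := by
      have : Real.exp (4 * x) = Real.exp x ^ 4 := by
        rw [← Real.exp_nat_mul]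
        norm_num
      rw [this]
      ring
    have e7 : x ^ 4 * Real.exp (4 * x) ≤ 24 * Real.exp (5 * x) := by
      have h2 : Real.exp (5 * x) = Real.exp x * Real.exp (4 * x) := by
        rw [← Real.exp_add]
        congr 1
        ring
      rw [h2]
      have := mul_le_mul_of_nonneg_right e4 (Real.exp_pos (4 * x)).le
      linarith
    have e8 : 0 ≤ x ^ 4 * Real.exp (4 * x) := by positivity
    have e9 : b ^ 4 * (x ^ 4 * Real.exp (4 * x)) ≤ b ^ 2 * (24 * Real.exp (5 * x)) :=
      mul_le_mul e5 e7 e8 (by positivity)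
    have := sq_nonneg ξ
    linarith

theorem t_LAW : S_LAW := by
  intro μ _ hI hm1 hm2
  -- integrability of `x²` and `x`
  have ix2 : Integrable (fun x : ℝ => x ^ 2) μ := by
    by_contra h
    rw [integral_undef h] at hm2
    exact zero_ne_one hm2
  have ix : Integrable (fun x : ℝ => x) μ := by
    refine (ix2.add (integrable_const (1 : ℝ))).mono' measurable_id.aestronglyMeasurable ?_
    refine Filter.Eventually.of_forall fun x => ?_
    simp only [Pi.add_apply, Real.norm_eq_abs]
    have := sq_nonneg (|x| - 1)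
    have h2 := sq_abs x
    have h3 := abs_nonneg x
    nlinarith
  obtain ⟨M1, hM1⟩ : ∃ M1 : ℝ, M1 = ∫ x, Real.exp (1 * x) ∂μ := ⟨_, rfl⟩
  obtain ⟨M5, hM5⟩ : ∃ M5 : ℝ, M5 = ∫ x, Real.exp (5 * x) ∂μ := ⟨_, rfl⟩
  obtain ⟨c1, hc1⟩ : ∃ c1 : ℝ, c1 = ∫ x, x ^ 2 / (1 + |x|) ∂μ := ⟨_, rfl⟩
  have hM5p : 0 < M5 := by
    rw [hM5]
    exact integral_exp_pos (hI 5 (by norm_num))
  have hM1p : 0 < M1 := by
    rw [hM1]
    exact integral_exp_pos (hI 1 (by norm_num))
  have hpt0 : ∀ x : ℝ, 0 ≤ x ^ 2 / (1 + |x|) := fun x => by positivity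
  have ic1 : Integrable (fun x : ℝ => x ^ 2 / (1 + |x|)) μ := by
    refine ix2.mono' ?_ ?_
    · have : Measurable fun x : ℝ => x ^ 2 / (1 + |x|) := by fun_prop
      exact this.aestronglyMeasurable
    · refine Filter.Eventually.of_forall fun x => ?_
      rw [Real.norm_of_nonneg (hpt0 x)]
      refine div_le_self (sq_nonneg x) ?_
      have := abs_nonneg x
      linarith
  have hc1p : 0 < c1 := by
    rw [hc1]
    refine lt_of_le_of_ne (integral_nonneg hpt0) fun h => ?_
    have h2 := (integral_eq_zero_iff_of_nonneg hpt0 ic1).1 h.symm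
    have h3 : (fun x : ℝ => x ^ 2) =ᵐ[μ] 0 := by
      filter_upwards [h2] with x hx
      have h4 : x ^ 2 / (1 + |x|) = 0 := hx
      have h5 : (1 + |x|) ≠ 0 := by positivity
      rw [div_eq_zero_iff] at h4
      rcases h4 with h4 | h4
      · exact h4
      · exact absurd h4 h5
    rw [integral_congr_ae h3] at hm2
    simp at hm2
  -- `Lam ≥ 0`
  have hLam : ∀ b : ℝ, 0 ≤ b → 0 ≤ Lam μ b := by
    intro b hb
    rw [← Real.exp_le_exp, Real.exp_zero, exp_lam hI hb]
    have h1 : ∫ x, (1 + b * x) ∂μ ≤ ∫ x, Real.exp (b * x) ∂μ := by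
      refine integral_mono ((integrable_const (1 : ℝ)).add (ix.const_mul b)) (hI b hb) ?_
      intro x
      have := Real.add_one_le_exp (b * x)
      show 1 + b * x ≤ Real.exp (b * x)
      linarith
    rw [integral_add (integrable_const (1 : ℝ)) (ix.const_mul b), integral_const_mul, hm1] at h1
    simpa using h1
  have hLam1 : Real.exp (Lam μ 1) = M1 := by
    rw [exp_lam hI (by norm_num), hM1]
  -- lower bound of the variance
  have hlow : ∀ b : ℝ, 0 ≤ b → b ≤ 1 → b ^ 2 * (c1 / M1) ^ 2 ≤ sig2 μ b := by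
    intro b hb hb1
    obtain ⟨t, ht⟩ : ∃ t : ℝ → ℝ, t = fun x => Real.exp (b * x - Lam μ b) := ⟨_, rfl⟩
    have it : Integrable t μ := by
      have := int_pow hI hb 1
      rw [ht]
      simpa using this
    have it2 : Integrable (fun x => t x ^ 2) μ := by
      rw [ht]
      exact int_pow hI hb 2
    have mt : ∫ x, t x ∂μ = 1 := by
      rw [ht]
      exact mean_one hI hb
    have mt2 : ∫ x, t x ^ 2 ∂μ = 1 + sig2 μ b := by
      rw [ht]
      exact sq_mean hI hb
    have mest : Measurable t := by
      rw [ht]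
      fun_prop
    have ixt : Integrable (fun x => x * t x) μ := by
      refine (ix2.add it2).mono' ((measurable_id.mul mest).aestronglyMeasurable) ?_
      refine Filter.Eventually.of_forall fun x => ?_
      simp only [Pi.add_apply, Real.norm_eq_abs]
      rw [abs_mul]
      have h1 := sq_nonneg (|x| - |t x|)
      have h2 := sq_abs x
      have h3 := sq_abs (t x)
      have h4 := abs_nonneg x
      have h5 := abs_nonneg (t x)
      nlinarith
    obtain ⟨m, hm⟩ : ∃ m : ℝ, m = ∫ x, x * t x ∂μ := ⟨_, rfl⟩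
    have hsq : m ^ 2 ≤ sig2 μ b := by
      have h0 : 0 ≤ ∫ x, (t x - 1 - m * x) ^ 2 ∂μ := integral_nonneg fun x => sq_nonneg _
      have e : (fun x : ℝ => (t x - 1 - m * x) ^ 2) = fun x => t x ^ 2 - 2 * t x + 1
          - 2 * m * (x * t x) + 2 * m * x + m ^ 2 * x ^ 2 := by
        funext x
        ring
      have k1 : Integrable (fun x => t x ^ 2 - 2 * t x) μ := it2.sub (it.const_mul 2)
      have k2 : Integrable (fun x => t x ^ 2 - 2 * t x + 1) μ := k1.add (integrable_const 1)
      have k3 : Integrable (fun x => t x ^ 2 - 2 * t x + 1 - 2 * m * (x * t x)) μ :=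
        k2.sub (ixt.const_mul (2 * m))
      have k4 : Integrable (fun x => t x ^ 2 - 2 * t x + 1 - 2 * m * (x * t x) + 2 * m * x) μ :=
        k3.add (ix.const_mul (2 * m))
      rw [e, integral_add k4 (ix2.const_mul (m ^ 2)), integral_add k3 (ix.const_mul (2 * m)),
        integral_sub k2 (ixt.const_mul (2 * m)), integral_add k1 (integrable_const 1),
        integral_sub it2 (it.const_mul 2), integral_const_mul, integral_const_mul,
        integral_const_mul, integral_const_mul, mt, mt2, hm1, hm2, ← hm] at h0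
      simp only [integral_const, probReal_univ, smul_eq_mul, mul_one, mul_zero] at h0
      nlinarith
    have hmlow : b * (c1 / M1) ≤ m := by
      have e1 : m = Real.exp (-(Lam μ b)) * ∫ x, x * (Real.exp (b * x) - 1) ∂μ := by
        have e2 : (fun x : ℝ => x * t x) = fun x =>
            Real.exp (-(Lam μ b)) * (x * (Real.exp (b * x) - 1)) +
              Real.exp (-(Lam μ b)) * x := by
          funext x
          rw [ht]
          have : Real.exp (b * x - Lam μ b) = Real.exp (-(Lam μ b)) * Real.exp (b * x) := by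
            rw [← Real.exp_add]
            congr 1
            ring
          show x * Real.exp (b * x - Lam μ b) = _
          rw [this]
          ring
        have ixe : Integrable (fun x => x * (Real.exp (b * x) - 1)) μ := by
          have e3 : (fun x : ℝ => x * (Real.exp (b * x) - 1)) = fun x =>
              Real.exp (Lam μ b) * (x * t x) - x := by
            funext x
            rw [ht]
            have : Real.exp (b * x) = Real.exp (Lam μ b) * Real.exp (b * x - Lam μ b) := by
              rw [← Real.exp_add]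
              congr 1
              ring
            show x * (Real.exp (b * x) - 1) = Real.exp (Lam μ b) *
              (x * Real.exp (b * x - Lam μ b)) - x
            rw [this]
            ring
          rw [e3]
          exact (ixt.const_mul _).sub ix
        rw [hm, e2, integral_add (ixe.const_mul _) (ix.const_mul _), integral_const_mul,
          integral_const_mul, hm1, mul_zero, add_zero]
      have ixe' : Integrable (fun x => x * (Real.exp (b * x) - 1)) μ := by
        have e3 : (fun x : ℝ => x * (Real.exp (b * x) - 1)) = fun x =>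
            Real.exp (Lam μ b) * (x * t x) - x := by
          funext x
          rw [ht]
          have : Real.exp (b * x) = Real.exp (Lam μ b) * Real.exp (b * x - Lam μ b) := by
            rw [← Real.exp_add]
            congr 1
            ring
          show x * (Real.exp (b * x) - 1) = Real.exp (Lam μ b) *
            (x * Real.exp (b * x - Lam μ b)) - x
          rw [this]
          ring
        rw [e3]
        exact (ixt.const_mul _).sub ix
      have h2 : b * c1 ≤ ∫ x, x * (Real.exp (b * x) - 1) ∂μ := by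
        rw [hc1, ← integral_const_mul]
        exact integral_mono (ic1.const_mul b) ixe' (cov_pt hb hb1)
      have hLb : Lam μ b ≤ Lam μ 1 := by
        have h3 := lam_conv hI (u := 0) (v := 1) (le_refl 0) (by norm_num) hb hb1
        rw [mul_zero, mul_one, zero_add, lam_zero, mul_zero, zero_add] at h3
        have h4 := hLam 1 (by norm_num)
        nlinarith
      have h5 : M1⁻¹ ≤ Real.exp (-(Lam μ b)) := by
        rw [Real.exp_neg]
        refine inv_anti₀ (Real.exp_pos _) ?_
        rw [← hLam1]
        exact Real.exp_le_exp.2 hLb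
      rw [e1]
      have h6 : 0 ≤ b * c1 := by positivity
      calc b * (c1 / M1) = M1⁻¹ * (b * c1) := by
            rw [div_eq_mul_inv]
            ring
        _ ≤ Real.exp (-(Lam μ b)) * (b * c1) := mul_le_mul_of_nonneg_right h5 h6
        _ ≤ _ := mul_le_mul_of_nonneg_left h2 (Real.exp_pos _).le
    have h7 : 0 ≤ b * (c1 / M1) := by positivity
    have h8 := pow_le_pow_left₀ h7 hmlow 2
    calc b ^ 2 * (c1 / M1) ^ 2 = (b * (c1 / M1)) ^ 2 := by ring
      _ ≤ m ^ 2 := h8
      _ ≤ _ := hsq
  obtain ⟨q, hq⟩ : ∃ q : ℝ, q = (c1 / M1) ^ 2 := ⟨_, rfl⟩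
  have hq0 : 0 < q := by
    rw [hq]
    positivity
  rw [← hq] at hlow
  refine ⟨1 + 24 * M5 / q, 1, sig2 μ 1, ?_, one_pos, ?_, fun b hb => sig2_mono hI hb, ?_⟩
  · have : 0 ≤ 24 * M5 / q := by positivity
    linarith
  · have := hlow 1 (by norm_num) le_rfl
    linarith
  · intro b hb hb1
    have i1 := int_pow hI hb 1
    have i2 := int_pow hI hb 2
    have i3 := int_pow hI hb 3
    have i4 := int_pow hI hb 4
    obtain ⟨t, ht⟩ : ∃ t : ℝ → ℝ, t = fun x => Real.exp (b * x - Lam μ b) := ⟨_, rfl⟩
    have it : Integrable t μ := by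
      rw [ht]
      simpa using i1
    have it2 : Integrable (fun x => t x ^ 2) μ := by
      rw [ht]
      exact i2
    have it3 : Integrable (fun x => t x ^ 3) μ := by
      rw [ht]
      exact i3
    have it4 : Integrable (fun x => t x ^ 4) μ := by
      rw [ht]
      exact i4
    have mt : ∫ x, t x ∂μ = 1 := by
      rw [ht]
      exact mean_one hI hb
    have mt2 : ∫ x, t x ^ 2 ∂μ = 1 + sig2 μ b := by
      rw [ht]
      exact sq_mean hI hb
    have e2 : (fun x : ℝ => (t x - 1) ^ 2) = fun x => t x ^ 2 - 2 * t x + 1 := by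
      funext x
      ring
    have e4 : (fun x : ℝ => (t x - 1) ^ 4) = fun x => t x ^ 4 - 4 * t x ^ 3 + 6 * t x ^ 2
        - 4 * t x + 1 := by
      funext x
      ring
    have e3 : (fun x : ℝ => (t x - 1) ^ 3) = fun x => t x ^ 3 - 3 * t x ^ 2 + 3 * t x - 1 := by
      funext x
      ring
    have j2 : Integrable (fun x => (t x - 1) ^ 2) μ := by
      rw [e2]
      exact (it2.sub (it.const_mul 2)).add (integrable_const 1)
    have j4 : Integrable (fun x => (t x - 1) ^ 4) μ := by
      rw [e4]
      exact (((it4.sub (it3.const_mul 4)).add (it2.const_mul 6)).sub (it.const_mul 4)).add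
        (integrable_const 1)
    have j3 : Integrable (fun x => (t x - 1) ^ 3) μ := by
      rw [e3]
      exact ((it3.sub (it2.const_mul 3)).add (it.const_mul 3)).sub (integrable_const 1)
    have m1 : ∫ x, (t x - 1) ∂μ = 0 := by
      rw [integral_sub it (integrable_const 1), mt]
      simp
    have m2 : ∫ x, (t x - 1) ^ 2 ∂μ = sig2 μ b := by
      have k1 : Integrable (fun x => t x ^ 2 - 2 * t x) μ := it2.sub (it.const_mul 2)
      rw [e2, integral_add k1 (integrable_const 1), integral_sub it2 (it.const_mul 2), integral_const_mul, mt, mt2]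
      simp only [integral_const, probReal_univ, smul_eq_mul, mul_one]
      ring
    have m4 : ∫ x, (t x - 1) ^ 4 ∂μ ≤ sig2 μ b + b ^ 2 * (24 * M5) := by
      have h1 : ∫ x, (t x - 1) ^ 4 ∂μ ≤
          ∫ x, ((t x - 1) ^ 2 + b ^ 2 * (24 * Real.exp (5 * x))) ∂μ := by
        refine integral_mono j4 (j2.add (((hI 5 (by norm_num)).const_mul 24).const_mul (b ^ 2)))
          fun x => ?_
        rw [ht]
        exact four_pt hb hb1 (hLam b hb) x
      rw [integral_add j2 (((hI 5 (by norm_num)).const_mul 24).const_mul (b ^ 2)), m2,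
        integral_const_mul, integral_const_mul, ← hM5] at h1
      exact h1
    have hb2 : b ^ 2 ≤ sig2 μ b / q := by
      rw [le_div_iff₀ hq0]
      exact hlow b hb hb1
    have hsig : 0 ≤ sig2 μ b := by
      rw [← m2]
      exact integral_nonneg fun x => sq_nonneg _
    have m4' : ∫ x, (t x - 1) ^ 4 ∂μ ≤ (1 + 24 * M5 / q) * sig2 μ b := by
      have h2 := mul_le_mul_of_nonneg_right hb2 (by positivity : 0 ≤ 24 * M5)
      have h3 : (1 + 24 * M5 / q) * sig2 μ b = sig2 μ b + sig2 μ b / q * (24 * M5) := by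
        rw [div_eq_mul_inv, div_eq_mul_inv]
        ring
      rw [h3]
      linarith
    have m3 : |∫ x, (t x - 1) ^ 3 ∂μ| ≤ (1 + 24 * M5 / q) * sig2 μ b := by
      have h1 : |∫ x, (t x - 1) ^ 3 ∂μ| ≤ ∫ x, ((t x - 1) ^ 2 + (t x - 1) ^ 4) / 2 ∂μ := by
        refine abs_integral_le_integral_abs.trans ?_
        refine integral_mono j3.abs ((j2.add j4).div_const 2) fun x => ?_
        show |(t x - 1) ^ 3| ≤ ((t x - 1) ^ 2 + (t x - 1) ^ 4) / 2
        rw [abs_pow]
        set a : ℝ := |t x - 1| with ha
        have h2 : (t x - 1) ^ 2 = a ^ 2 := (sq_abs _).symm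
        have h4 : (t x - 1) ^ 4 = a ^ 4 := by
          calc (t x - 1) ^ 4 = ((t x - 1) ^ 2) ^ 2 := by ring
            _ = (a ^ 2) ^ 2 := by rw [h2]
            _ = a ^ 4 := by ring
        rw [h2, h4]
        nlinarith [sq_nonneg (a * (a - 1))]
      rw [integral_div, integral_add j2 j4, m2] at h1
      have h5 : 0 ≤ 24 * M5 / q := by positivity
      have h6 := mul_nonneg h5 hsig
      refine h1.trans ?_
      nlinarith
    have r : ∀ x : ℝ, Real.exp (b * x - Lam μ b) = t x := fun x => by rw [ht]
    simp only [r]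
    exact ⟨j4, m1, m2, m3, m4'⟩

end Pool.Agent.H277.QC
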